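import Mathlib
import Pool.Agent.Helper429.PT.Two

set_option autoImplicit false

namespace Pool.Agent.Results.MP_4a8797_al.UnboundedPeriodicExponents

open Pool.Agent.Helper429.PT

universe u

/-- There is a variety V of pro-2 groups such that V has a free group on every set X, and every
free group of V on a set X with at least two elements (finite or infinite) contains elements of
arbitrarily large finite order. -/
theorem result : ∃ V : Variety.{u} 2,
    (∀ X : Type u, ∃ (F : Type u) (_ : Group F) (_ : TopologicalSpace F)
      (_ : IsTopologicalGroup F) (ι : X → F), IsFree V ι) ∧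
    ∀ (X F : Type u) [Nontrivial X] [Group F] [TopologicalSpace F] [IsTopologicalGroup F]
      (ι : X → F), IsFree V ι → ∀ N : ℕ, ∃ g : F, IsOfFinOrder g ∧ N < orderOf g :=
  two

end Pool.Agent.Results.MP_4a8797_al.UnboundedPeriodicExponents
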